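import Pool.Agent.H47.RP.Targets3

/-!
# Row RLG of the board rpr: the remote past is generated by conditional expectations (helper46)
-/

set_option autoImplicit false

open MeasureTheory ProbabilityTheory Filter Topology Finset

namespace Pool.Agent.H46.RPR

open Pool.Agent.H89.MT (I1 X pt z1 IsMult)
open Pool.Agent.H36.RP (S past remote remote_le mulI dil Local Star)
open Pool.Agent.H47.RP

theorem meas_coord (k : ℤ) : Measurable (fun x : X => (x k : ℝ)) :=
  measurable_subtype_coe.comp (measurable_pi_apply k)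

theorem abs_coord (x : X) (k : ℤ) : |(x k : ℝ)| ≤ 1 := abs_le.2 (x k).2

theorem meas_laws_one (κ : Measure X) {q k : ℤ} (hk : k ≤ q) :
    Measurable[laws κ q] (κ[fun x => (x k : ℝ) | remote]) := by
  rw [measurable_iff_comap_le]
  exact le_sup_left.trans (le_iSup_of_le k (le_iSup_of_le hk le_rfl))

theorem meas_laws_two (κ : Measure X) {q k : ℤ} (hk : k ≤ q) :
    Measurable[laws κ q] (κ[fun x => |(x k : ℝ)| | remote]) := by
  rw [measurable_iff_comap_le]
  exact le_sup_right.trans (le_iSup_of_le k (le_iSup_of_le hk le_rfl))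

theorem int_of_bdd (κ : Measure X) [IsProbabilityMeasure κ] (f : X → ℝ)
    (hf : AEStronglyMeasurable f κ) (hb : ∀ᵐ x ∂κ, |f x| ≤ 1) : Integrable f κ :=
  Integrable.of_bound hf 1 hb

/-- the conditional moments are functions of the generators of `laws` -/
theorem moment (κ : Measure X) [IsProbabilityMeasure κ] (ha : AbsR κ) (k : ℤ) (j : ℕ) :
    (κ[fun x => (x k : ℝ) ^ j | remote] =ᵐ[κ] (κ[fun x => |(x k : ℝ)| | remote]) ^ j) ∨
      ∃ i, (κ[fun x => (x k : ℝ) ^ j | remote] =ᵐ[κ]
        (κ[fun x => |(x k : ℝ)| | remote]) ^ i * κ[fun x => (x k : ℝ) | remote]) := by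
  have hs : StronglyMeasurable[remote] (κ[fun x => |(x k : ℝ)| | remote]) :=
    stronglyMeasurable_condExp
  have hae : ∀ᵐ x ∂κ, (κ[fun x => |(x k : ℝ)| | remote]) x = |(x k : ℝ)| := ha k
  have hb : ∀ i : ℕ, ∀ᵐ x ∂κ, |((κ[fun x => |(x k : ℝ)| | remote]) ^ i) x| ≤ 1 := by
    intro i
    filter_upwards [hae] with x hx
    rw [Pi.pow_apply, hx, abs_pow, abs_abs]
    exact pow_le_one₀ (abs_nonneg _) (abs_coord x k)
  have hm : ∀ i : ℕ, AEStronglyMeasurable ((κ[fun x => |(x k : ℝ)| | remote]) ^ i) κ :=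
    fun i => ((hs.pow i).mono remote_le).aestronglyMeasurable
  rcases Nat.even_or_odd j with hj | hj
  · left
    have h1 : (fun x : X => (x k : ℝ) ^ j) =ᵐ[κ] (κ[fun x => |(x k : ℝ)| | remote]) ^ j := by
      filter_upwards [hae] with x hx
      rw [Pi.pow_apply, hx, hj.pow_abs]
    refine (condExp_congr_ae h1).trans ?_
    rw [condExp_of_stronglyMeasurable remote_le (hs.pow j) (int_of_bdd κ _ (hm j) (hb j))]
  · right
    obtain ⟨i, rfl⟩ := hj
    refine ⟨2 * i, ?_⟩
    have h1 : (fun x : X => (x k : ℝ) ^ (2 * i + 1)) =ᵐ[κ]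
        (κ[fun x => |(x k : ℝ)| | remote]) ^ (2 * i) * fun x : X => (x k : ℝ) := by
      filter_upwards [hae] with x hx
      rw [Pi.mul_apply, Pi.pow_apply, hx, (even_two_mul i).pow_abs, pow_succ]
    refine (condExp_congr_ae h1).trans ?_
    refine condExp_mul_of_stronglyMeasurable_left (hs.pow (2 * i)) ?_ ?_
    · refine int_of_bdd κ _ ((hm _).mul (meas_coord k).aestronglyMeasurable) ?_
      filter_upwards [hb (2 * i)] with x hx
      rw [Pi.mul_apply, abs_mul]
      exact mul_le_one₀ hx (abs_nonneg _) (abs_coord x k)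
    · exact int_of_bdd κ _ (meas_coord k).aestronglyMeasurable (ae_of_all _ fun x => abs_coord x k)

/-- [RLG] -/
theorem pf_RLG (h0 : T_RGN) : T_RLG := by
  intro κ _ ha hci q A hA
  have hg : Measurable[remote] (A.indicator fun _ => (1 : ℝ)) :=
    Measurable.indicator (m := remote) (@measurable_const _ _ _ remote _) hA
  obtain ⟨h, hh, hgh⟩ := h0 κ hci (A.indicator fun _ => (1 : ℝ)) 1 hg (fun x => by
    by_cases hx : x ∈ A
    · rw [Set.indicator_of_mem hx, abs_one]
    · rw [Set.indicator_of_notMem hx, abs_zero]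
      exact zero_le_one) q
  have hle : bias κ q ≤ eventuallyMeasurableSpace (laws κ q) (ae κ) := by
    refine iSup_le fun k => iSup_le fun hk => iSup_le fun j => ?_
    rw [← measurable_iff_comap_le]
    have m1 := meas_laws_one κ hk
    have m2 := meas_laws_two κ hk
    rcases moment κ ha k j with h1 | ⟨i, h1⟩
    · exact Measurable.eventuallyMeasurable_of_eventuallyEq (m := laws κ q)
        (Measurable.pow_const (m := laws κ q) m2 j) h1
    · exact Measurable.eventuallyMeasurable_of_eventuallyEq (m := laws κ q)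
        (Measurable.mul (m := laws κ q) (Measurable.pow_const (m := laws κ q) m2 i) m1) h1
  have hB : MeasurableSet[bias κ q] (h ⁻¹' Set.Ioi (1 / 2 : ℝ)) := hh measurableSet_Ioi
  obtain ⟨B, hB1, hB2⟩ := hle _ hB
  refine ⟨B, hB1, EventuallyEq.trans ?_ hB2⟩
  filter_upwards [hgh] with x hx
  by_cases hxA : x ∈ A
  · have h2 : h x = 1 := by
      rw [← hx, Set.indicator_of_mem hxA]
    have h3 : x ∈ h ⁻¹' Set.Ioi (1 / 2 : ℝ) := by
      rw [Set.mem_preimage, h2, Set.mem_Ioi]
      norm_num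
    exact propext ⟨fun _ => h3, fun _ => hxA⟩
  · have h2 : h x = 0 := by
      rw [← hx, Set.indicator_of_notMem hxA]
    have h3 : x ∉ h ⁻¹' Set.Ioi (1 / 2 : ℝ) := by
      rw [Set.mem_preimage, h2, Set.mem_Ioi]
      norm_num
    exact propext ⟨fun h4 => absurd h4 hxA, fun h4 => absurd h4 h3⟩

end Pool.Agent.H46.RPR
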